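import Pool.Agent.Run7.h222.SU.Stm

/-!
Piece SELA of project SU (helper222): the order of the eigenvalues when all are in the open upper
half plane (sliding windows of length `n / 2`).
-/

set_option autoImplicit false

namespace Run7.h232.SU

open Matrix Pool.Agent.H16.SUn Run7.h222.SU

/-- A discrete intermediate value theorem. -/
theorem cross (D : ℕ → ℝ) (h : ℕ) (h0 : 0 < h) (hD : D h = -D 0) :
    ∃ k, k < h ∧ D k * D (k + 1) ≤ 0 := by
  by_contra hc
  push Not at hc
  have key : ∀ k, k ≤ h → 0 < D 0 * D k := by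
    intro k
    induction k with
    | zero =>
      intro _
      have h1 := hc 0 h0
      have h2 : D 0 ≠ 0 := fun h3 => by
        rw [h3, zero_mul] at h1
        exact lt_irrefl _ h1
      exact mul_self_pos.2 h2
    | succ k ih =>
      intro hk
      have h1 := ih (by omega)
      have h2 := hc k (by omega)
      have h3 : 0 < (D 0 * D k) * (D k * D (k + 1)) := mul_pos h1 h2
      have h4 : (D 0 * D k) * (D k * D (k + 1)) = (D k * D k) * (D 0 * D (k + 1)) := by ring
      rw [h4] at h3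
      have h5 : D k ≠ 0 := fun h6 => by
        rw [h6, mul_zero] at h1
        exact lt_irrefl _ h1
      exact (pos_iff_pos_of_mul_pos h3).1 (mul_self_pos.2 h5)
  have h1 := key h le_rfl
  rw [hD] at h1
  nlinarith [mul_self_nonneg (D 0)]

theorem nrm {z : ℂ} (hz : star z * z = 1) : ‖z‖ = 1 := by
  have h1 := congrArg norm hz
  rw [norm_mul, norm_star, NormOneClass.norm_one] at h1
  nlinarith [norm_nonneg z]

theorem exp_arg {z : ℂ} (hz : star z * z = 1) :
    Complex.exp ((Complex.arg z : ℂ) * Complex.I) = z := by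
  have h1 := Complex.norm_mul_exp_arg_mul_I z
  rwa [nrm hz, Complex.ofReal_one, one_mul] at h1

theorem arg_bds {z : ℂ} (hz : 0 < z.im) : 0 < Complex.arg z ∧ Complex.arg z < Real.pi := by
  refine ⟨lt_of_le_of_ne (Complex.arg_nonneg_iff.2 hz.le) ?_,
    Complex.arg_lt_pi_iff.2 (Or.inr hz.ne')⟩
  intro h
  exact hz.ne' (Complex.arg_eq_zero_iff.1 h.symm).2

/-- The sign condition of `S_W`. -/
theorem sgn_cond {φ γ η τ : ℝ} (hφ : 0 < φ ∧ φ < Real.pi) (hγ : 0 < γ ∧ γ < Real.pi)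
    (hη : 0 < η ∧ η < Real.pi) (h : (φ - τ) * (γ - τ) ≤ 0) :
    (Real.sin ((τ - φ) / 2) * Real.sin ((φ + η) / 2)) *
    (Real.sin ((τ - γ) / 2) * Real.sin ((γ + η) / 2)) ≤ 0 := by
  have h1 : 0 < Real.sin ((φ + η) / 2) :=
    Real.sin_pos_of_pos_of_lt_pi (by linarith [hφ.1, hη.1]) (by linarith [hφ.2, hη.2])
  have h2 : 0 < Real.sin ((γ + η) / 2) :=
    Real.sin_pos_of_pos_of_lt_pi (by linarith [hγ.1, hη.1]) (by linarith [hγ.2, hη.2])
  have h3 : Real.sin ((τ - φ) / 2) * Real.sin ((τ - γ) / 2) ≤ 0 := by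
    have hpi := Real.pi_pos
    rcases le_total φ γ with hle | hle
    · have ha : φ ≤ τ := by
        by_contra hc
        push Not at hc
        nlinarith [mul_pos (sub_pos.2 hc) (sub_pos.2 (lt_of_lt_of_le hc hle))]
      have hb : τ ≤ γ := by
        by_contra hc
        push Not at hc
        nlinarith [mul_pos (sub_pos.2 hc) (sub_pos.2 (lt_of_le_of_lt hle hc))]
      exact mul_nonpos_of_nonneg_of_nonpos
        (Real.sin_nonneg_of_nonneg_of_le_pi (by linarith) (by linarith [hφ.1, hγ.2]))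
        (Real.sin_nonpos_of_nonpos_of_neg_pi_le (by linarith) (by linarith [hφ.1, hγ.2]))
    · have ha : γ ≤ τ := by
        by_contra hc
        push Not at hc
        nlinarith [mul_pos (sub_pos.2 hc) (sub_pos.2 (lt_of_lt_of_le hc hle))]
      have hb : τ ≤ φ := by
        by_contra hc
        push Not at hc
        nlinarith [mul_pos (sub_pos.2 hc) (sub_pos.2 (lt_of_le_of_lt hle hc))]
      exact mul_nonpos_of_nonpos_of_nonneg
        (Real.sin_nonpos_of_nonpos_of_neg_pi_le (by linarith) (by linarith [hφ.2, hγ.1]))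
        (Real.sin_nonneg_of_nonneg_of_le_pi (by linarith) (by linarith [hφ.2, hγ.1]))
  have h4 : (Real.sin ((τ - φ) / 2) * Real.sin ((φ + η) / 2)) *
      (Real.sin ((τ - γ) / 2) * Real.sin ((γ + η) / 2)) =
      (Real.sin ((τ - φ) / 2) * Real.sin ((τ - γ) / 2)) *
        (Real.sin ((φ + η) / 2) * Real.sin ((γ + η) / 2)) := by ring
  rw [h4]
  exact mul_nonpos_of_nonpos_of_nonneg h3 (mul_pos h1 h2).le

theorem t_SELA : S_W → S_SELA := by
  intro hW n z hn4 hn6 hz1 hz2 hz3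
  have : NeZero n := ⟨by omega⟩
  obtain ⟨j, hj⟩ : ∃ j, n = 4 * j + 6 := ⟨(n - 6) / 4, by omega⟩
  obtain ⟨θ, hθ⟩ : ∃ θ : ℕ → ℝ, ∀ i (hi : i < n), θ i = Complex.arg (z ⟨i, hi⟩) :=
    ⟨fun i => if hi : i < n then Complex.arg (z ⟨i, hi⟩) else 0, fun i hi => dif_pos hi⟩
  have hexp : ∀ i (hi : i < n), Complex.exp ((θ i : ℂ) * Complex.I) = z ⟨i, hi⟩ := by
    intro i hi
    rw [hθ i hi]
    exact exp_arg (hz1 _)
  have hpos : ∀ i, i < n → 0 < θ i ∧ θ i < Real.pi := by
    intro i hi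
    rw [hθ i hi]
    exact arg_bds (hz3 _)
  obtain ⟨m, hm⟩ : ∃ m : ℤ, ∑ i ∈ Finset.range n, θ i = 2 * (Real.pi * m) := by
    have h1 : Complex.exp (((∑ i ∈ Finset.range n, θ i : ℝ) : ℂ) * Complex.I) = 1 := by
      have h2 : ∏ i : Fin n, z i = ∏ i : Fin n, Complex.exp ((θ i : ℂ) * Complex.I) :=
        Finset.prod_congr rfl fun i _ => (hexp i i.2).symm
      rw [hz2, ← Finset.prod_range (fun i => Complex.exp ((θ i : ℂ) * Complex.I)),
        ← Complex.exp_sum, ← Finset.sum_mul] at h2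
      rw [Complex.ofReal_sum]
      exact h2.symm
    obtain ⟨m, hm⟩ := Complex.exp_eq_one_iff.1 h1
    refine ⟨m, ?_⟩
    have h3 : ((∑ i ∈ Finset.range n, θ i : ℝ) : ℂ) = ((2 * (Real.pi * m) : ℝ) : ℂ) := by
      apply mul_right_cancel₀ Complex.I_ne_zero
      rw [hm]
      push_cast
      ring
    exact_mod_cast h3
  obtain ⟨D, hDdef⟩ : ∃ D : ℕ → ℝ, ∀ k, D k =
      ∑ i ∈ Finset.range (2 * j + 3), θ (k + i) - Real.pi * m := ⟨_, fun _ => rfl⟩
  have hD : D (2 * j + 3) = -D 0 := by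
    rw [hDdef, hDdef]
    have h1 : ∑ i ∈ Finset.range n, θ i = ∑ i ∈ Finset.range (2 * j + 3), θ i +
        ∑ i ∈ Finset.range (2 * j + 3), θ (2 * j + 3 + i) := by
      rw [← Finset.sum_range_add]
      congr 2
      omega
    simp only [Nat.zero_add]
    linarith
  obtain ⟨k, hk, hkD⟩ := cross D (2 * j + 3) (by omega) hD
  obtain ⟨T, hT⟩ : ∃ T : ℝ, T = ∑ i ∈ Finset.range (2 * j + 2), θ (k + 1 + i) := ⟨_, rfl⟩
  have hDk : D k = θ k - (Real.pi * m - T) := by
    rw [hDdef, hT, Finset.sum_range_succ']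
    have h1 : ∀ i, θ (k + (i + 1)) = θ (k + 1 + i) := fun i => by congr 1; omega
    simp only [h1, Nat.add_zero]
    ring
  have hDk1 : D (k + 1) = θ (k + (2 * j + 3)) - (Real.pi * m - T) := by
    rw [hDdef, hT, Finset.sum_range_succ]
    have h1 : θ (k + 1 + (2 * j + 2)) = θ (k + (2 * j + 3)) := by congr 1; omega
    rw [h1]
    ring
  rw [hDk, hDk1] at hkD
  -- the permutation
  obtain ⟨π, hπ1, hπ2, hπ3⟩ : ∃ π : Equiv.Perm (Fin n),
      π ⟨2 * j + 1, by omega⟩ = ⟨k, by omega⟩ ∧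
      π ⟨2 * j + 3, by omega⟩ = ⟨k + (2 * j + 3), by omega⟩ ∧
      ∀ i (hi : i < n), 2 * j + 4 ≤ i → π ⟨i, hi⟩ = ⟨i + k - (2 * j + 3), by omega⟩ := by
    have e1 : (⟨2 * j + 1, by omega⟩ : Fin n) ≠ ⟨0, by omega⟩ := by
      intro h
      have := congrArg Fin.val h
      simp at this
    have e2 : (⟨2 * j + 1, by omega⟩ : Fin n) ≠ ⟨2 * j + 3, by omega⟩ := by
      intro h
      have := congrArg Fin.val h
      simp at this
    have e3 : (⟨2 * j + 3, by omega⟩ : Fin n) ≠ ⟨0, by omega⟩ := by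
      intro h
      have := congrArg Fin.val h
      simp at this
    refine ⟨((Equiv.swap (⟨0, by omega⟩ : Fin n) ⟨2 * j + 3, by omega⟩).trans
      (Equiv.swap ⟨2 * j + 1, by omega⟩ ⟨2 * j + 3, by omega⟩)).trans
      (Equiv.addRight (⟨k + (2 * j + 3), by omega⟩ : Fin n)), ?_, ?_, ?_⟩
    · simp only [Equiv.trans_apply]
      rw [Equiv.swap_apply_of_ne_of_ne e1 e2, Equiv.swap_apply_left, Equiv.coe_addRight]
      apply Fin.ext
      rw [Fin.val_add]
      show (2 * j + 3 + (k + (2 * j + 3))) % n = k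
      have : 2 * j + 3 + (k + (2 * j + 3)) = k + n := by omega
      rw [this, Nat.add_mod_right, Nat.mod_eq_of_lt (by omega)]
    · simp only [Equiv.trans_apply]
      rw [Equiv.swap_apply_right, Equiv.swap_apply_of_ne_of_ne e1.symm e3.symm,
        Equiv.coe_addRight]
      apply Fin.ext
      rw [Fin.val_add]
      show (0 + (k + (2 * j + 3))) % n = k + (2 * j + 3)
      rw [Nat.zero_add, Nat.mod_eq_of_lt (by omega)]
    · intro i hi hi2
      have f1 : (⟨i, hi⟩ : Fin n) ≠ ⟨0, by omega⟩ := by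
        intro h
        have := congrArg Fin.val h
        simp only at this
        omega
      have f2 : (⟨i, hi⟩ : Fin n) ≠ ⟨2 * j + 3, by omega⟩ := by
        intro h
        have := congrArg Fin.val h
        simp only at this
        omega
      have f3 : (⟨i, hi⟩ : Fin n) ≠ ⟨2 * j + 1, by omega⟩ := by
        intro h
        have := congrArg Fin.val h
        simp only at this
        omega
      simp only [Equiv.trans_apply]
      rw [Equiv.swap_apply_of_ne_of_ne f1 f2, Equiv.swap_apply_of_ne_of_ne f3 f2,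
        Equiv.coe_addRight]
      apply Fin.ext
      rw [Fin.val_add]
      show (i + (k + (2 * j + 3))) % n = i + k - (2 * j + 3)
      have : i + (k + (2 * j + 3)) = (i + k - (2 * j + 3)) + n := by omega
      rw [this, Nat.add_mod_right, Nat.mod_eq_of_lt (by omega)]
  obtain ⟨a, ha⟩ : ∃ a : Fin n → ℂ, a = fun i => z (π i) := ⟨_, rfl⟩
  refine ⟨π, ?_⟩
  rw [← ha]
  have ha1 : a ⟨2 * j + 1, by omega⟩ = Complex.exp ((θ k : ℂ) * Complex.I) := by
    rw [hexp k (by omega), ha]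
    simp only [hπ1]
  have ha3 : a ⟨2 * j + 3, by omega⟩ = Complex.exp ((θ (k + (2 * j + 3)) : ℂ) * Complex.I) := by
    rw [hexp _ (by omega), ha]
    simp only [hπ2]
  obtain ⟨η, hη, ha2⟩ : ∃ η : ℝ, (0 < η ∧ η < Real.pi) ∧
      a ⟨2 * j + 2, by omega⟩ = Complex.exp ((η : ℂ) * Complex.I) := by
    refine ⟨Complex.arg (z (π ⟨2 * j + 2, by omega⟩)), arg_bds (hz3 _), ?_⟩
    rw [exp_arg (hz1 _), ha]
  have hstar : star (a ⟨2 * j + 2, by omega⟩) = Complex.exp (-((η : ℂ) * Complex.I)) := by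
    have h1 : star (a ⟨2 * j + 2, by omega⟩) * a ⟨2 * j + 2, by omega⟩ = 1 := by
      rw [ha]
      exact hz1 _
    rw [eq_inv_of_mul_eq_one_left h1, ha2, Complex.exp_neg]
  have hprod : ∏ i, a i = 1 := by
    rw [ha, ← hz2]
    exact Equiv.prod_comp π z
  have hP4 : pp a (2 * j + 4) = Complex.exp (-((T : ℂ) * Complex.I)) := by
    have h1 := pp_n a hprod
    have h2 : pp a n = pp a (2 * j + 4) * Complex.exp ((T : ℂ) * Complex.I) := by
      unfold pp
      rw [← Finset.prod_range_mul_prod_Ico _ (show 2 * j + 4 ≤ n by omega)]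
      congr 1
      rw [hT, Complex.ofReal_sum, Finset.sum_mul, Complex.exp_sum, Finset.prod_Ico_eq_prod_range]
      have h3 : n - (2 * j + 4) = 2 * j + 2 := by omega
      rw [h3]
      refine Finset.prod_congr rfl fun i hi => ?_
      have hi' : i < 2 * j + 2 := Finset.mem_range.1 hi
      rw [dif_pos (show 2 * j + 4 + i < n by omega), hexp _ (show k + 1 + i < n by omega), ha]
      simp only [hπ3 (2 * j + 4 + i) (by omega) (by omega)]
      congr 2
      omega
    rw [h1] at h2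
    rw [Complex.exp_neg]
    exact eq_inv_of_mul_eq_one_left h2.symm
  have hp : pp a (2 * j + 4) = pp a (2 * j + 1) * a ⟨2 * j + 1, by omega⟩ *
      a ⟨2 * j + 2, by omega⟩ * a ⟨2 * j + 3, by omega⟩ := by
    have p1 : pp a (2 * j + 2) = pp a (2 * j + 1) * a ⟨2 * j + 1, by omega⟩ :=
      pp_succ a ⟨2 * j + 1, by omega⟩
    have p2 : pp a (2 * j + 3) = pp a (2 * j + 2) * a ⟨2 * j + 2, by omega⟩ :=
      pp_succ a ⟨2 * j + 2, by omega⟩
    have p3 : pp a (2 * j + 4) = pp a (2 * j + 3) * a ⟨2 * j + 3, by omega⟩ :=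
      pp_succ a ⟨2 * j + 3, by omega⟩
    rw [p3, p2, p1]
  have hP1 : pp a (2 * j + 1) = Complex.exp (-((T : ℂ) * Complex.I) - (θ k : ℂ) * Complex.I -
      (η : ℂ) * Complex.I - (θ (k + (2 * j + 3)) : ℂ) * Complex.I) := by
    rw [hP4, ha1, ha2, ha3] at hp
    rw [Complex.exp_sub, Complex.exp_sub, Complex.exp_sub, hp]
    field_simp
  obtain ⟨w, hw0, hw1, hw⟩ := hW (θ k) (θ (k + (2 * j + 3))) η (Real.pi * m - T)
    (sgn_cond (hpos k (by omega)) (hpos _ (by omega)) hη hkD)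
  obtain ⟨e, he⟩ : ∃ e : ℂ, e = Complex.exp (((Real.pi * m : ℝ) : ℂ) * Complex.I) := ⟨_, rfl⟩
  have hee : e * e = 1 := by
    rw [he, ← Complex.exp_add, Complex.exp_eq_one_iff]
    refine ⟨m, ?_⟩
    push_cast
    ring
  refine ⟨j, by omega, e, w, mul_self_eq_one_iff.1 hee, hw0, hw1, ?_⟩
  have key : ∀ x : ℂ, e * Complex.exp ((((Real.pi * m - T : ℝ) : ℂ) - x) * Complex.I) =
      Complex.exp (-((T : ℂ) * Complex.I) - x * Complex.I) := by
    intro x
    have h1 : (((Real.pi * m - T : ℝ) : ℂ) - x) * Complex.I =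
        ((Real.pi * m : ℝ) : ℂ) * Complex.I + (-((T : ℂ) * Complex.I) - x * Complex.I) := by
      push_cast
      ring
    rw [h1, Complex.exp_add, ← he, ← mul_assoc, hee, one_mul]
  have hA : Complex.exp (-((T : ℂ) * Complex.I) - (θ k : ℂ) * Complex.I -
      (η : ℂ) * Complex.I - (θ (k + (2 * j + 3)) : ℂ) * Complex.I) *
      Complex.exp ((θ k : ℂ) * Complex.I) =
      e * Complex.exp ((((Real.pi * m - T : ℝ) : ℂ) - η - (θ (k + (2 * j + 3)) : ℂ)) *
        Complex.I) := by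
    rw [sub_sub _ (η : ℂ) (θ (k + (2 * j + 3)) : ℂ), key, ← Complex.exp_add]
    congr 1
    ring
  have hB : Complex.exp (-((T : ℂ) * Complex.I) - (θ k : ℂ) * Complex.I -
      (η : ℂ) * Complex.I - (θ (k + (2 * j + 3)) : ℂ) * Complex.I) *
      Complex.exp ((θ (k + (2 * j + 3)) : ℂ) * Complex.I) =
      e * Complex.exp ((((Real.pi * m - T : ℝ) : ℂ) - η - (θ k : ℂ)) * Complex.I) := by
    rw [sub_sub _ (η : ℂ) (θ k : ℂ), key, ← Complex.exp_add]
    congr 1
    ring
  have hC : Complex.exp (-((T : ℂ) * Complex.I)) =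
      e * Complex.exp (((Real.pi * m - T : ℝ) : ℂ) * Complex.I) := by
    have k0 := key 0
    rw [sub_zero, zero_mul, sub_zero] at k0
    exact k0.symm
  rw [hstar, hP4, hP1, ha1, ha3, hA, hB, hC]
  linear_combination e * hw

end Run7.h232.SU
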